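import Pool.Agent.H189.G.Par
import Pool.Agent.H189.G.Fin
import Pool.Agent.TH794.HK.FinN
import Pool.Agent.R988.Up

/-! The profile of the resolvent for centred laws on `[-1, 1]` with a small variance, with all
inputs discharged. -/

set_option autoImplicit false
set_option linter.unusedSectionVars false

open scoped BigOperators Topology
open MeasureTheory Filter Set

namespace Pool.Agent.H189.G

open Pool.Agent.TH794.HK
open Pool.Agent.W788.BK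
open Pool.Agent.H4R2.LO (Zd)
open Pool.Agent.W788.BK.Num
open Pool.Agent.TH794.QD
open Pool.Agent.TH794.QE

/-- `g₀(E)`, the boundary value of the diagonal of the free resolvent -/
noncomputable def γ0 (d : ℕ) (E : ℝ) : ℂ := GF (F0 d) (E : ℂ)

/-- `g₁(E)` -/
noncomputable def γ1 (d : ℕ) (E : ℝ) : ℂ := GF (F1 d) (E : ℂ)

/-- the boundary values in the bulk -/
theorem bulk (d : ℕ) (hd : 3 ≤ d) (κ : ℝ) (hκ : 0 < κ) (hκ1 : κ ≤ 1) :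
    ∃ m C : ℝ, 0 < m ∧ 0 < C ∧ ∀ E : ℝ, |E| ≤ 2 * d - κ → m ≤ (γ1 d E).im ∧
      (γ1 d E).im ≤ (γ0 d E).im ∧ (γ0 d E).im ≤ C := by
  have hO := Pool.Agent.W918.BK.Osc.osc
  have hd0 : (0 : ℝ) ≤ d := Nat.cast_nonneg d
  have hreg : ∀ E : ℝ, |E| ≤ 2 * d - κ → RegE d κ E := fun E hE => Or.inr ⟨hd, by linarith⟩
  obtain ⟨m, hm, hl⟩ := low_lim d (by omega) κ hκ hκ1 (fun E => GF (F1 d) (E : ℂ))
    fun E _ => lim3 _ _ (hol1 hO d hd) E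
  obtain ⟨C, hC, hup⟩ := Pool.Agent.R988.up d (by omega) κ hκ hκ1
  refine ⟨m, C, hm, hC, fun E hE => ⟨hl E (hreg E hE) hE, (GF_im hO d hd (E : ℂ) (by simp)).2, ?_⟩⟩
  exact (Complex.im_le_norm _).trans (hup E _ (hreg E hE) (lim3 _ _ (hol0 hO d hd) E))

/-- the engine in dimension at least three -/
theorem engG3 (d : ℕ) (hd : 3 ≤ d) (κ : ℝ) (hκ : 0 < κ) (hκ1 : κ ≤ 1) :
    ∀ Kp : ℝ, 0 ≤ Kp → EngG d (fun E => |E| ≤ 2 * d - κ) (γ0 d) (γ1 d) Kp := by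
  have hO := Pool.Agent.W918.BK.Osc.osc
  have hd0 : (0 : ℝ) ≤ d := Nat.cast_nonneg d
  obtain ⟨m, C, hm, hC, hb⟩ := bulk d hd κ hκ hκ1
  intro Kp hKp
  obtain ⟨CQ, hCQ, hdat⟩ := dat3
    (Pool.Agent.W465.BK.qb (Pool.Agent.W240.BK.two Pool.Agent.W918.BK.Osc.osc)) hO d hd
  obtain ⟨y0, h0⟩ := engineG Pool.Agent.W193.BK.ES.es
    (Pool.Agent.W261.BK.third Pool.Agent.W540.BK.fac)
    (Pool.Agent.W240.BK.fluct (Pool.Agent.W240.BK.var Pool.Agent.W193.BK.ES.es))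
    Pool.Agent.W475.BK.inv Pool.Agent.W975.BK.sup
    Pool.Agent.W475.BK.low Pool.Agent.W790.BK.ADM.adm Pool.Agent.W540.BK.fac
    d (by omega) (fun _ => True)
    (fun _ => True) (fun E => |E| ≤ 2 * d - κ) C1 CQ
    (Pool.Agent.TH794.QD.CH d) (γ0 d) (γ1 d) hdat
    C1_ge hCQ (CH_nonneg d) 1 one_pos
    (fun E hE => ⟨by linarith, trivial, fun x hx => trivial⟩)
    (fun E x hE hx => trivial)
    1 (m / 2) Kp one_pos (by positivity) hKp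
    (fun E hE => by
      have := hb E hE
      linarith [this.1, this.2.1])
  exact ⟨y0, h0⟩

/-- **the profile of the resolvent, centred laws on `[-1, 1]` of variance at least
`c^{1/10000}`** -/
theorem baseG (d : ℕ) (hd : 3 ≤ d) (κ : ℝ) (hκ : 0 < κ) (hκ1 : κ ≤ 1) (K : ℝ) (hK : 0 ≤ K) :
    ∃ c0 : ℝ, 0 < c0 ∧ ∀ c : ℝ, 0 < c → c ≤ c0 →
    ∀ (μ : Measure ℝ), IsProbabilityMeasure μ → (∀ᵐ s ∂μ, |s| ≤ 1) →
    ∀ V : ℝ, ∫ s, s ∂μ = 0 → ∫ s, s ^ 2 ∂μ = V → c ^ (1 / 10000 : ℝ) ≤ V →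
      ∃ G : Set (Zd d → ℝ), MeasurableSet G ∧
        1 - Real.exp (-c ^ (-(1 / 101) : ℝ)) ≤
          (Measure.infinitePi fun _ : Zd d => μ).real G ∧
        ∀ ω ∈ G, (∀ x, |ω x| ≤ 1) ∧
          ∀ a : Zd d, ‖a‖ ≤ Real.exp (c ^ (-(1 / 101) : ℝ)) →
          ∀ e : ℝ, |2 * (d : ℝ) - e| ≤ 2 * d - κ → ∀ η : ℝ, c ^ (81 / 40 : ℝ) ≤ η →
          η ≤ c ^ (161 / 80 : ℝ) →
          ∀ u : Zd d → ℂ, Rs d (fun x => 2 * d + c * ω x) a e η u →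
          ∀ p : Fin d → ℝ, ∑ i, p i ^ 2 ≤ K * (η * (c ^ 2 * V)) →
            ‖((η : ℝ) : ℂ) * ∑' x, ph p (x - a) * ((‖u x‖ ^ 2 : ℝ) : ℂ) -
              ((Tg (γ0 d) (γ1 d) η (c ^ 2 * V) (2 * d - e) p : ℝ) : ℂ)‖ ≤ c ^ (1 / 200 : ℝ) := by
  obtain ⟨m, C, hm, hC, hb⟩ := bulk d hd κ hκ hκ1
  exact finG d (fun E => |E| ≤ 2 * d - κ) (γ0 d) (γ1 d) K hK
    (engG3 d hd κ hκ hκ1 (2 * K) (by positivity)) fun E hE => by
      obtain ⟨h5, h6, h7⟩ := hb E hE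
      exact ⟨by linarith, by linarith, h6⟩

end Pool.Agent.H189.G
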