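import Mathlib

/-! Clipping a Gaussian variable. -/

set_option autoImplicit false

open scoped BigOperators Topology
open MeasureTheory Filter Set ProbabilityTheory

namespace Pool.Agent.H189.G

/-- the value clipped at `±B`, divided by `B` -/
noncomputable def cl (B s : ℝ) : ℝ := max (-1) (min 1 (s / B))

theorem cl_abs (B s : ℝ) : |cl B s| ≤ 1 := by
  unfold cl
  rw [abs_le]
  exact ⟨le_max_left _ _, max_le (by norm_num) (min_le_left _ _)⟩

theorem cl_eq {B s : ℝ} (hB : 0 < B) (hs : |s| ≤ B) : cl B s = s / B := by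
  unfold cl
  have h := abs_le.1 hs
  have h1 : s / B ≤ 1 := by
    rw [div_le_one hB]
    exact h.2
  have h2 : -1 ≤ s / B := by
    rw [le_div_iff₀ hB]
    linarith
  rw [min_eq_right h1, max_eq_right h2]

theorem cl_neg (B s : ℝ) : cl B (-s) = -cl B s := by
  unfold cl
  rw [neg_div]
  rcases le_total (s / B) 1 with h1 | h1 <;> rcases le_total (-1) (s / B) with h2 | h2
  · rw [min_eq_right (by linarith : -(s / B) ≤ 1), min_eq_right h1, max_eq_right h2,
      max_eq_right (by linarith : -1 ≤ -(s / B))]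
  · rw [min_eq_left (by linarith : 1 ≤ -(s / B)), min_eq_right h1, max_eq_left h2]
    norm_num
  · rw [min_eq_right (by linarith : -(s / B) ≤ 1), min_eq_left h1]
    rw [max_eq_left (by linarith : -(s / B) ≤ -1)]
    norm_num
  · linarith

theorem cl_meas (B : ℝ) : Measurable (cl B) := by
  unfold cl
  fun_prop

theorem cl_sq_le {B : ℝ} (hB : 0 < B) (s : ℝ) : B ^ 2 * cl B s ^ 2 ≤ s ^ 2 := by
  rcases le_or_gt |s| B with h | h
  · rw [cl_eq hB h]
    field_simp
    exact le_rfl
  · have h1 : cl B s ^ 2 ≤ 1 := by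
      rw [← sq_abs]
      exact pow_le_one₀ (abs_nonneg _) (cl_abs B s)
    have h2 : B ^ 2 ≤ s ^ 2 := by
      rw [← sq_abs s]
      exact pow_le_pow_left₀ hB.le h.le 2
    nlinarith [sq_nonneg B]

theorem cl_sq_ge {B : ℝ} (hB : 0 < B) (s : ℝ) :
    s ^ 2 ≤ B ^ 2 * cl B s ^ 2 + 4 * Real.exp (-(B ^ 2 / 8)) * Real.exp (3 / 8 * s ^ 2) := by
  rcases le_or_gt |s| B with h | h
  · rw [cl_eq hB h]
    have e1 : B ^ 2 * (s / B) ^ 2 = s ^ 2 := by
      field_simp
    rw [e1]
    have : 0 ≤ 4 * Real.exp (-(B ^ 2 / 8)) * Real.exp (3 / 8 * s ^ 2) := by positivity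
    linarith
  · have h2 : B ^ 2 ≤ s ^ 2 := by
      rw [← sq_abs s]
      exact pow_le_pow_left₀ hB.le h.le 2
    have h3 : s ^ 2 / 4 + 1 ≤ Real.exp (s ^ 2 / 4) := Real.add_one_le_exp _
    have h4 : Real.exp (s ^ 2 / 4) ≤ Real.exp (-(B ^ 2 / 8)) * Real.exp (3 / 8 * s ^ 2) := by
      rw [← Real.exp_add]
      apply Real.exp_le_exp.2
      linarith
    have h5 : 0 ≤ B ^ 2 * cl B s ^ 2 := by positivity
    linarith

/-- an exponential moment -/
theorem gexp : Integrable (fun s : ℝ => Real.exp (3 / 8 * s ^ 2)) (gaussianReal 0 1) ∧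
    ∫ s, Real.exp (3 / 8 * s ^ 2) ∂(gaussianReal 0 1) = 2 := by
  have h1 : ∀ s : ℝ, gaussianPDFReal 0 1 s * Real.exp (3 / 8 * s ^ 2) =
      (Real.sqrt (2 * Real.pi))⁻¹ * Real.exp (-(1 / 8) * s ^ 2) := by
    intro s
    unfold gaussianPDFReal
    simp only [NNReal.coe_one, mul_one, sub_zero]
    rw [mul_assoc, ← Real.exp_add]
    congr 2
    ring
  have hint : Integrable (fun s : ℝ => (Real.sqrt (2 * Real.pi))⁻¹ *
      Real.exp (-(1 / 8) * s ^ 2)) volume := (integrable_exp_neg_mul_sq (by norm_num)).const_mul _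
  have hval : ∫ s : ℝ, (Real.sqrt (2 * Real.pi))⁻¹ * Real.exp (-(1 / 8) * s ^ 2) = 2 := by
    rw [integral_const_mul, integral_gaussian]
    obtain ⟨q, hq⟩ : ∃ q, q = Real.sqrt (2 * Real.pi) := ⟨_, rfl⟩
    have hq0 : 0 < q := by rw [hq]; exact Real.sqrt_pos.2 (by positivity)
    have e1 : Real.sqrt (Real.pi / (1 / 8)) = 2 * q := by
      rw [hq]
      have e2 : Real.pi / (1 / 8) = (2 * Real.sqrt (2 * Real.pi)) ^ 2 := by
        rw [mul_pow, Real.sq_sqrt (by positivity)]
        ring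
      rw [e2, Real.sqrt_sq (by positivity)]
    rw [e1, ← hq]
    field_simp
  constructor
  · rw [gaussianReal_of_var_ne_zero _ one_ne_zero, integrable_withDensity_iff_integrable_smul₀'
      (measurable_gaussianPDF 0 1).aemeasurable (ae_of_all _ fun x => gaussianPDF_lt_top)]
    refine hint.congr (ae_of_all _ fun s => ?_)
    simp only [smul_eq_mul, toReal_gaussianPDF]
    exact (h1 s).symm
  · rw [integral_gaussianReal_eq_integral_smul one_ne_zero]
    simp only [smul_eq_mul]
    rw [← hval]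
    exact integral_congr_ae (ae_of_all _ h1)

/-- the Gaussian tail -/
theorem tail (B : ℝ) (hB : 0 < B) :
    (gaussianReal 0 1).real {s | B < |s|} ≤ 2 * Real.exp (-(B ^ 2 / 8)) := by
  obtain ⟨h1, h2⟩ := gexp
  have hm : MeasurableSet {s : ℝ | B < |s|} := measurableSet_lt measurable_const (by fun_prop)
  have h3 : ∫ s, {s : ℝ | B < |s|}.indicator (fun _ => (1 : ℝ)) s ∂(gaussianReal 0 1) ≤
      ∫ s, Real.exp (-(B ^ 2 / 8)) * Real.exp (3 / 8 * s ^ 2) ∂(gaussianReal 0 1) := by
    refine integral_mono ((integrable_const _).indicator hm) (h1.const_mul _) fun s => ?_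
    by_cases hs : s ∈ {s : ℝ | B < |s|}
    · rw [Set.indicator_of_mem hs, ← Real.exp_add]
      have hs' : B < |s| := hs
      have h4 : B ^ 2 ≤ s ^ 2 := by
        rw [← sq_abs s]
        exact pow_le_pow_left₀ hB.le hs'.le 2
      exact Real.one_le_exp (by nlinarith [sq_nonneg s])
    · rw [Set.indicator_of_notMem hs]
      positivity
  rw [integral_indicator_const _ hm, smul_eq_mul, mul_one, integral_const_mul, h2] at h3
  linarith

/-- the moments of the clipped variable -/
theorem cl_mean (B : ℝ) : ∫ s, cl B s ∂(gaussianReal 0 1) = 0 := by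
  have h1 : ∫ s, cl B s ∂(gaussianReal 0 1) = ∫ s, cl B (-s) ∂(gaussianReal 0 1) := by
    have h2 : (gaussianReal 0 1).map (fun s => -s) = gaussianReal 0 1 := by
      rw [gaussianReal_map_neg, neg_zero]
    conv_lhs => rw [← h2]
    rw [integral_map (by fun_prop) (cl_meas B).aestronglyMeasurable]
  simp only [cl_neg, integral_neg] at h1
  linarith

theorem cl_int (B : ℝ) : Integrable (fun s => cl B s ^ 2) (gaussianReal 0 1) := by
  refine Integrable.of_bound (C := 1) ((cl_meas B).pow_const 2).aestronglyMeasurable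
    (ae_of_all _ fun s => ?_)
  rw [Real.norm_eq_abs, abs_pow]
  exact pow_le_one₀ (abs_nonneg _) (cl_abs B s)

theorem sq_int : Integrable (fun s : ℝ => s ^ 2) (gaussianReal 0 1) ∧
    ∫ s, s ^ 2 ∂(gaussianReal 0 1) = 1 := by
  constructor
  · exact (memLp_id_gaussianReal 2).integrable_sq
  · have h1 := variance_id_gaussianReal (μ := 0) (v := 1)
    rw [variance_eq_integral (by fun_prop)] at h1
    simp only [id_eq, integral_id_gaussianReal, sub_zero, NNReal.coe_one] at h1
    exact h1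

theorem cl_var (B : ℝ) (hB : 0 < B) :
    1 - 8 * Real.exp (-(B ^ 2 / 8)) ≤ B ^ 2 * ∫ s, cl B s ^ 2 ∂(gaussianReal 0 1) ∧
      B ^ 2 * ∫ s, cl B s ^ 2 ∂(gaussianReal 0 1) ≤ 1 := by
  obtain ⟨g1, g2⟩ := gexp
  obtain ⟨q1, q2⟩ := sq_int
  constructor
  · have h1 : ∫ s, s ^ 2 ∂(gaussianReal 0 1) ≤ ∫ s, (B ^ 2 * cl B s ^ 2 +
        4 * Real.exp (-(B ^ 2 / 8)) * Real.exp (3 / 8 * s ^ 2)) ∂(gaussianReal 0 1) :=
      integral_mono q1 (((cl_int B).const_mul _).add (g1.const_mul _)) fun s => cl_sq_ge hB s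
    rw [integral_add ((cl_int B).const_mul _) (g1.const_mul _), integral_const_mul,
      integral_const_mul, g2, q2] at h1
    linarith
  · rw [← integral_const_mul, ← q2]
    exact integral_mono ((cl_int B).const_mul _) q1 fun s => cl_sq_le hB s

/-- the law of the clipped variable -/
noncomputable def clLaw (B : ℝ) : Measure ℝ := (gaussianReal 0 1).map fun s => cl B (-s)

theorem clNeg_meas (B : ℝ) : Measurable fun s => cl B (-s) := (cl_meas B).comp measurable_neg

instance (B : ℝ) : IsProbabilityMeasure (clLaw B) :=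
  Measure.isProbabilityMeasure_map (clNeg_meas B).aemeasurable

theorem clLaw_bd (B : ℝ) : ∀ᵐ s ∂(clLaw B), |s| ≤ 1 := by
  unfold clLaw
  rw [ae_map_iff (clNeg_meas B).aemeasurable (measurableSet_le (by fun_prop) (by fun_prop))]
  exact ae_of_all _ fun s => cl_abs B _

theorem clLaw_mean (B : ℝ) : ∫ s, s ∂(clLaw B) = 0 := by
  unfold clLaw
  rw [integral_map (clNeg_meas B).aemeasurable (by fun_prop)]
  simp only [cl_neg, integral_neg, cl_mean, neg_zero]

theorem clLaw_var (B : ℝ) : ∫ s, s ^ 2 ∂(clLaw B) = ∫ s, cl B s ^ 2 ∂(gaussianReal 0 1) := by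
  unfold clLaw
  rw [integral_map (clNeg_meas B).aemeasurable (by fun_prop)]
  simp only [cl_neg, neg_sq]

theorem clLaw_pi {X : Type} (B : ℝ) :
    (Measure.infinitePi fun _ : X => gaussianReal 0 1).map (fun ξ x => cl B (-ξ x)) =
      Measure.infinitePi fun _ : X => clLaw B :=
  Measure.infinitePi_map_pi (μ := fun _ : X => gaussianReal 0 1)
    (f := fun _ (s : ℝ) => cl B (-s)) (fun _ => clNeg_meas B)

/-- the Gaussian variables of a finite set are bounded -/
theorem box_event {X : Type} (S : Finset X) (B : ℝ) (hB : 0 < B) :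
    MeasurableSet {ξ : X → ℝ | ∀ x ∈ S, |ξ x| ≤ B} ∧
    (Measure.infinitePi fun _ : X => gaussianReal 0 1).real {ξ : X → ℝ | ∀ x ∈ S, |ξ x| ≤ B}ᶜ ≤
      S.card * (2 * Real.exp (-(B ^ 2 / 8))) := by
  have e1 : {ξ : X → ℝ | ∀ x ∈ S, |ξ x| ≤ B} = ⋂ x ∈ S, {ξ : X → ℝ | |ξ x| ≤ B} := by
    ext ξ
    simp
  have hm : ∀ x : X, MeasurableSet {ξ : X → ℝ | |ξ x| ≤ B} := fun x =>
    measurableSet_le (by fun_prop) measurable_const
  constructor
  · rw [e1]
    exact Finset.measurableSet_biInter _ fun x _ => hm x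
  · rw [e1]
    have e2 : (⋂ x ∈ S, {ξ : X → ℝ | |ξ x| ≤ B})ᶜ = ⋃ x ∈ S, {ξ : X → ℝ | |ξ x| ≤ B}ᶜ := by
      rw [Set.compl_iInter₂]
    rw [e2]
    refine (measureReal_biUnion_finset_le _ _).trans ?_
    rw [← nsmul_eq_mul, ← Finset.sum_const]
    refine Finset.sum_le_sum fun x _ => ?_
    refine le_trans (le_of_eq ?_) (tail B hB)
    have h1 : (Measure.infinitePi fun _ : X => gaussianReal 0 1).map (fun ξ : X → ℝ => ξ x) =
        gaussianReal 0 1 := Measure.infinitePi_map_eval (fun _ : X => gaussianReal 0 1) x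
    have h2 : (gaussianReal 0 1).real {s : ℝ | B < |s|} =
        (Measure.infinitePi fun _ : X => gaussianReal 0 1).real
          ((fun ξ : X → ℝ => ξ x) ⁻¹' {s : ℝ | B < |s|}) := by
      rw [← map_measureReal_apply (measurable_pi_apply x)
        (measurableSet_lt measurable_const (by fun_prop)), h1]
    rw [h2]
    congr 1
    ext ξ
    simp only [mem_compl_iff, mem_ofPred_eq, not_le, mem_preimage]

end Pool.Agent.H189.G
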