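import Pool.Agent.H189.G.Clip


/-! The event that the Gaussian variables agree with the clipped ones on a large box. -/

set_option autoImplicit false

open scoped BigOperators Topology
open MeasureTheory Filter Set ProbabilityTheory

namespace Pool.Agent.H189.G

/-- the box of radius `N` -/
noncomputable def box (d : ℕ) (N : ℕ) : Finset (Fin d → ℤ) :=
  Fintype.piFinset fun _ => Finset.Icc (-(N : ℤ)) N

theorem box_card (d N : ℕ) : ((box d N).card : ℝ) = (2 * (N : ℝ) + 1) ^ d := by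
  unfold box
  rw [Fintype.card_piFinset]
  simp only [Int.card_Icc, Finset.prod_const, Finset.card_univ, Fintype.card_fin]
  push_cast
  congr 1
  have h1 : ((N : ℤ) + 1 - -(N : ℤ)).toNat = 2 * N + 1 := by omega
  rw [h1]
  push_cast
  ring

theorem mem_box {d N : ℕ} {x : Fin d → ℤ} (h : ‖x‖ ≤ N) : x ∈ box d N := by
  unfold box
  rw [Fintype.mem_piFinset]
  intro i
  have h1 := (norm_le_pi_norm x i).trans h
  rw [Int.norm_eq_abs] at h1
  rw [Finset.mem_Icc, ← abs_le]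
  exact_mod_cast h1

/-- the event -/
theorem event {d : ℕ} (B : ℝ) (hB : 0 < B) (N : ℕ) (G : Set ((Fin d → ℤ) → ℝ))
    (hG : MeasurableSet G) (p : ℝ)
    (hP : 1 - p ≤ (Measure.infinitePi fun _ : Fin d → ℤ => clLaw B).real G) :
    ∃ G' : Set ((Fin d → ℤ) → ℝ), MeasurableSet G' ∧
      1 - (p + (2 * (N : ℝ) + 1) ^ d * (2 * Real.exp (-(B ^ 2 / 8)))) ≤
        (Measure.infinitePi fun _ : Fin d → ℤ => gaussianReal 0 1).real G' ∧
      ∀ ξ ∈ G', (fun x => cl B (-ξ x)) ∈ G ∧ ∀ x : Fin d → ℤ, ‖x‖ ≤ N → |ξ x| ≤ B := by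
  obtain ⟨P, hPd⟩ : ∃ P, P = Measure.infinitePi fun _ : Fin d → ℤ => gaussianReal 0 1 := ⟨_, rfl⟩
  have hPp : IsProbabilityMeasure P := by rw [hPd]; infer_instance
  have hTm : Measurable (fun (ξ : (Fin d → ℤ) → ℝ) x => cl B (-ξ x)) :=
    measurable_pi_lambda _ fun x => (clNeg_meas B).comp (measurable_pi_apply x)
  obtain ⟨h1, h2⟩ := box_event (box d N) B hB
  rw [← hPd] at h2
  have h3 : P.real ((fun ξ x => cl B (-ξ x)) ⁻¹' G) =
      (Measure.infinitePi fun _ : Fin d → ℤ => clLaw B).real G := by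
    rw [← clLaw_pi B, hPd, map_measureReal_apply hTm hG]
  refine ⟨(fun ξ x => cl B (-ξ x)) ⁻¹' G ∩ {ξ | ∀ x ∈ box d N, |ξ x| ≤ B},
    (hTm hG).inter h1, ?_, fun ξ hξ => ⟨hξ.1, fun x hx => hξ.2 x (mem_box hx)⟩⟩
  rw [← hPd]
  have h4 := probReal_add_probReal_compl (μ := P) ((hTm hG).inter h1)
  have h5 : P.real ((fun ξ x => cl B (-ξ x)) ⁻¹' G ∩ {ξ | ∀ x ∈ box d N, |ξ x| ≤ B})ᶜ ≤
      P.real ((fun ξ x => cl B (-ξ x)) ⁻¹' G)ᶜ + P.real {ξ | ∀ x ∈ box d N, |ξ x| ≤ B}ᶜ := by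
    rw [Set.compl_inter]
    exact measureReal_union_le _ _
  have h6 := probReal_add_probReal_compl (μ := P) (hTm hG)
  rw [box_card] at h2
  linarith

/-- the numbers -/
theorem event_num (d : ℕ) (X Y B : ℝ) (hX : 1 ≤ X) (hB : (24 * d + 24) * X ≤ B ^ 2)
    (hY : 2 * X ≤ Y) (N : ℕ) (hN : (N : ℝ) ≤ Real.exp X) :
    Real.exp (-Y) + (2 * (N : ℝ) + 1) ^ d * (2 * Real.exp (-(B ^ 2 / 8))) ≤ Real.exp (-X) := by
  have he : 2 ≤ Real.exp X := by
    have := Real.add_one_le_exp X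
    linarith
  have h1 : Real.exp (-Y) ≤ 1 / 2 * Real.exp (-X) := by
    calc Real.exp (-Y) ≤ Real.exp (-X + -X) := Real.exp_le_exp.2 (by linarith)
      _ = Real.exp (-X) * Real.exp (-X) := Real.exp_add _ _
      _ ≤ 1 / 2 * Real.exp (-X) := by
          gcongr
          rw [Real.exp_neg, one_div]
          exact inv_anti₀ two_pos he
  have h2 : 2 * (N : ℝ) + 1 ≤ Real.exp (2 * X + 1) := by
    have h3 : 2 * (N : ℝ) + 1 ≤ 3 * Real.exp X := by linarith
    have h4 : Real.exp (2 * X + 1) = Real.exp X * Real.exp X * Real.exp 1 := by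
      rw [← Real.exp_add, ← Real.exp_add]
      ring_nf
    have h5 : 2 ≤ Real.exp 1 := by
      have := Real.add_one_le_exp (1 : ℝ)
      linarith
    rw [h4]
    nlinarith [Real.exp_pos X]
  have h6 : (2 * (N : ℝ) + 1) ^ d * (2 * Real.exp (-(B ^ 2 / 8))) ≤ 1 / 2 * Real.exp (-X) := by
    have h7 : (4 : ℝ) ≤ Real.exp 2 := by
      have h8 : Real.exp 2 = Real.exp 1 * Real.exp 1 := by
        rw [← Real.exp_add]
        norm_num
      have h5 : 2 ≤ Real.exp 1 := by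
        have := Real.add_one_le_exp (1 : ℝ)
        linarith
      rw [h8]
      nlinarith
    have h9 : (2 * (N : ℝ) + 1) ^ d ≤ Real.exp (d * (2 * X + 1)) := by
      rw [Real.exp_nat_mul]
      gcongr
    calc (2 * (N : ℝ) + 1) ^ d * (2 * Real.exp (-(B ^ 2 / 8))) ≤
        Real.exp (d * (2 * X + 1)) * (2 * Real.exp (-(B ^ 2 / 8))) := by gcongr
      _ = 1 / 2 * (4 * Real.exp (d * (2 * X + 1) + -(B ^ 2 / 8))) := by
          rw [Real.exp_add]
          ring
      _ ≤ 1 / 2 * (Real.exp 2 * Real.exp (d * (2 * X + 1) + -(B ^ 2 / 8))) := by gcongr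
      _ = 1 / 2 * Real.exp (2 + (d * (2 * X + 1) + -(B ^ 2 / 8))) := by
          rw [Real.exp_add 2]
      _ ≤ 1 / 2 * Real.exp (-X) := by
          have hd : (0 : ℝ) ≤ d := Nat.cast_nonneg d
          have hdX : (d : ℝ) * 1 ≤ d * X := mul_le_mul_of_nonneg_left hX hd
          gcongr
          nlinarith
  linarith

end Pool.Agent.H189.G
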