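import Pool.Agent.TH794.HK.LatK
import Pool.Agent.TH794.HK.Prob8
import Pool.Agent.TH794.HK.DatK
import Pool.Agent.H189.G.Num

/-! The choice of the parameters for the characteristic function, for laws on `[-b, b]` with a
small variance. -/

set_option autoImplicit false
set_option linter.unusedSectionVars false

open scoped BigOperators Matrix
open MeasureTheory

namespace Pool.Agent.H189.G

open Pool.Agent.TH794.HK
open Pool.Agent.TH794.QE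
open Pool.Agent.W788.BK
open Pool.Agent.W788.MFP.Four (T e NN adj K ft Op q NN_pos e_zero)
open Pool.Agent.W788.MF2.Dom Pool.Agent.W788.MF2.FormG
open Pool.Agent.H4R2.LO (Zd)
open Pool.Agent.W788.BK.Num
open Pool.Agent.TH794.LL2 (hexle sqrt_ex)
open Pool.Agent.TH794.QD (F0 F1 numE6)

/-- **the engine** -/
theorem engineG (hES : S_ES) (hTH : S_THIRD) (hFL : S_FLUCT) (hIN : S_INV)
    (hSU : S_SUP) (hLO : S_LOW) (hAD : S_ADM) (hFA : S_FAC)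
    (d : ℕ) (hd : 2 ≤ d) (U Bs B' : ℝ → Prop) (A0 CQ Ch : ℝ) (γ0 γ1 : ℝ → ℂ)
    (hdat : Dat d U Bs (11 / (5 * d)) A0 CQ Ch γ0 γ1) (hA0 : 1 ≤ A0) (hCQ : 0 < CQ)
    (hCh : 0 ≤ Ch) (r0 : ℝ) (hr0 : 0 < r0)
    (hB1 : ∀ E, B' E → |E| ≤ 3 * d ∧ U E ∧ ∀ x, |E - x| ≤ r0 → Bs x)
    (hB2 : ∀ E x, Bs E → |x - E| ≤ r0 → U x)
    (b ml Kp : ℝ) (hb : 0 < b) (hml : 0 < ml) (hKp : 0 ≤ Kp)
    (hB3 : ∀ E, B' E → 2 * ml ≤ (γ0 E).im) :
    ∃ y0 : ℝ, ∀ y : ℝ, y0 ≤ y →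
    ∀ (ν : Measure ℝ), IsProbabilityMeasure ν → (∀ᵐ s ∂ν, |s| ≤ b) → ∫ s, s ∂ν = 0 →
    ∀ Vv : ℝ, ∫ s, s ^ 2 ∂ν = Vv → Real.exp (-(1 / 10000) * y) ≤ Vv →
    ∀ t : ℝ, Real.exp (-(81 / 40) * y) ≤ t → t ≤ Real.exp (-(161 / 80) * y) →
    ∃ G : Set (Zd d → ℝ), MeasurableSet G ∧
      1 - Real.exp (-Real.exp (y / 100)) ≤ (Measure.infinitePi fun _ : Zd d => ν).real G ∧
      ∀ ξ ∈ G, QLawK d B' (Tg γ0 γ1 t (Real.exp (-2 * y) * Vv))
        (Real.exp (-1 * y)) (Real.exp (Real.exp (y / 100))) t (Real.exp (-10 * y))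
        (Kp * (t * (Real.exp (-2 * y) * Vv))) (Real.exp (-(1 / 180) * y)) ξ := by
  have hd2 : (2 : ℝ) ≤ d := by exact_mod_cast hd
  obtain ⟨A2, hA2⟩ : ∃ A1 : ℝ, A1 = 5 * A0 + 2 := ⟨_, rfl⟩
  obtain ⟨c, hc⟩ : ∃ c, c = b / m1 := ⟨_, rfl⟩
  have hA20 : 0 < A2 := by rw [hA2]; linarith
  obtain ⟨yd, hyd⟩ := hdat
  obtain ⟨y0, hy0⟩ := Filter.eventually_atTop.1 ((Filter.eventually_ge_atTop (1 : ℝ)).and
    ((Filter.eventually_ge_atTop yd).and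
    ((numK7 b A2 CQ hb hCQ hA20).and ((numM7 b A2 hb hA20).and
    ((numC7 d b A2 hb hA20).and ((prob8 d b c A2 hb
    hA20).and ((numS8 d A2 hA20).and ((numT9 d b A2 Ch ml Kp hb hA20 hCh hml hKp).and
    ((numG9 Kp b hKp).and
    ((ev2 12 5 6 0 (by norm_num)).and
    ((ev2 2 (11 / 10) 6 0 (by norm_num)).and ((ev2 5 6 7 0 (by norm_num)).and
    ((ev2 128 (-(1 / 5)) 0 0 (by norm_num)).and ((ev2 40 (-(1 / 10)) 0 0 (by norm_num)).and
    ((ev2 1 (-(1 / 80)) 0 0 (by norm_num)).and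
    ((ev2 4 (-(1 / 10)) 0 0 (by norm_num)).and
    ((ev2 (1 / r0) (-1) 0 0 (by norm_num)).and
    ((ev2 (2 * b ^ 2 * A2) (-2) (-1) 2 (by norm_num)).and
    ((ev2 4 (-(1 / 170)) (-(1 / 180)) 0 (by norm_num)).and
    ((ev2 4 (-(1 / 60)) (-(1 / 180)) 0 (by norm_num)).and
    ((ev2 (4 * d) (-(19 / 10)) (-(1 / 180)) 0 (by norm_num)).and
    (ev2 (1120 * d * A2) (-1) (-(1 / 180)) 2 (by norm_num)))))))))))))))))))))))
  refine ⟨y0, fun y hy ν hν hνb hν0 Vv hVv hvV t htl htu => ?_⟩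
  obtain ⟨hy1, hyyd, hK5, hM5, hC5, hPr, hS8, hT8, hG8, n1, n3, n4, n5, n6, n7, n8, n9, n10, n11,
    n12, n13, n14⟩ := hy0 y hy
  simp only [pow_zero, mul_one, zero_mul, Real.exp_zero] at n1 n3 n4 n5 n6 n7 n8 n9 n11 n12 n13
  obtain ⟨A1, hA1⟩ : ∃ A1 : ℝ, A1 = A2 * y := ⟨_, rfl⟩
  have hA10 : 0 < A1 := by rw [hA1]; positivity
  replace hK5 := hK5 A1 hA1
  replace hM5 := hM5 A1 hA1
  replace hC5 := hC5 A1 hA1
  replace hPr := hPr A1 hA1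
  replace hS8 := hS8 A1 hA1
  replace hT8 := hT8 A1 hA1
  -- the parameters
  obtain ⟨σ, hσ⟩ : ∃ σ, σ = Real.exp (-1 * y) := ⟨_, rfl⟩
  obtain ⟨δ, hδ⟩ : ∃ δ, δ = Real.exp (-(97 / 50) * y) := ⟨_, rfl⟩
  have hδ0 : 0 < δ := by rw [hδ]; positivity
  obtain ⟨η, hηd⟩ : ∃ η, η = t / δ := ⟨_, rfl⟩
  have htηδ : η * δ = t := by
    rw [hηd]
    field_simp
  have hη : Real.exp (-(17 / 200) * y) ≤ η := by
    rw [hηd, le_div_iff₀ hδ0]
    refine le_trans (le_of_eq ?_) htl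
    rw [hδ, ex_mul]
    norm_num
  have hη' : η ≤ Real.exp (-(59 / 1000) * y) := by
    rw [hηd, div_le_iff₀ hδ0]
    have h1 : t ≤ Real.exp (-(1999 / 1000) * y) := htu.trans (hexle hy1 _ _ (by norm_num))
    refine h1.trans (le_of_eq ?_)
    rw [hδ, ex_mul]
    norm_num
  obtain ⟨κ, hκ⟩ : ∃ κ : ℝ, κ = 11 / (5 * d) := ⟨_, rfl⟩
  have hκ1 : κ ≤ 11 / 10 := by
    rw [hκ, div_le_div_iff₀ (by positivity) (by norm_num)]
    linarith
  have hκ0 : 0 < κ := by rw [hκ]; positivity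
  have hκd : d * κ = 11 / 5 := by
    rw [hκ]
    field_simp
  obtain ⟨θ, hθ⟩ : ∃ θ, θ = 1 / 2 * Real.exp (-κ * y) := ⟨_, rfl⟩
  obtain ⟨L, hL⟩ : ∃ L : ℕ, L = 2 * ⌈Real.exp (6 * y)⌉₊ + 1 := ⟨_, rfl⟩
  have hLodd : Odd L := ⟨_, hL⟩
  have hσ0 : 0 < σ := by rw [hσ]; positivity
  have hη0 : 0 < η := lt_of_lt_of_le (Real.exp_pos _) hη
  have ht0 : 0 < t := lt_of_lt_of_le (Real.exp_pos _) htl
  have hθ0 : 0 < θ := by rw [hθ]; positivity
  have hη1 : η ≤ 1 := hη'.trans (Real.exp_le_one_iff.2 (by linarith))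
  have hx4 : Real.exp (-(1 / 10) * y) ≤ 1 / 4 := by linarith
  have hδ2 : δ ≤ 1 / 2 := by
    have : δ ≤ Real.exp (-(1 / 10) * y) := by
      rw [hδ]
      exact hexle hy1 _ _ (by norm_num)
    linarith
  have hL1 : Real.exp (6 * y) ≤ L := by
    have h1 := Nat.le_ceil (Real.exp (6 * y))
    rw [hL]
    push_cast
    have h2 := Real.exp_pos (6 * y)
    linarith
  have hL2 : (L : ℝ) ≤ Real.exp (7 * y) := by
    have h1 := Nat.ceil_lt_add_one (show 0 ≤ Real.exp (6 * y) by positivity)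
    have h3 : (1 : ℝ) ≤ Real.exp (6 * y) := Real.one_le_exp (by linarith)
    rw [hL]
    push_cast
    linarith
  have hLp : (0 : ℝ) < L := lt_of_lt_of_le (by positivity) hL1
  have hLne : NeZero L := ⟨by
    intro h0
    rw [h0] at hLp
    simp at hLp⟩
  have hθ1 : θ ≤ 1 := by
    rw [hθ]
    have hκy : 0 ≤ κ * y := mul_nonneg hκ0.le (by linarith only [hy1])
    have : Real.exp (-κ * y) ≤ 1 := Real.exp_le_one_iff.2 (by linarith only [hκy])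
    linarith only [this]
  have hθd : (2 * θ) ^ d = Real.exp (-(11 / 5) * y) := by
    rw [hθ, ← mul_assoc]
    norm_num
    rw [← neg_mul, ex_pow]
    congr 1
    rw [mul_neg, hκd]
    ring
  have hθL : 1 ≤ θ * L := by
    have h2 : Real.exp (κ * y) ≤ Real.exp (11 / 10 * y) := by
      apply Real.exp_le_exp.2
      apply mul_le_mul_of_nonneg_right hκ1
      linarith
    have h3 : Real.exp (-κ * y) * Real.exp (κ * y) = 1 := by
      rw [ex_mul]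
      simp
    calc (1 : ℝ) = 1 / 2 * (Real.exp (-κ * y) * (2 * Real.exp (κ * y))) := by
          linear_combination (-1) * h3
      _ ≤ 1 / 2 * (Real.exp (-κ * y) * L) := by
          have : 2 * Real.exp (κ * y) ≤ L := by linarith
          gcongr
      _ = _ := by rw [hθ]; ring
  -- the free data
  obtain ⟨dS, ⟨Q, hQ0, hQ1, hQb⟩, dF⟩ := hyd y hyyd L hLodd hL1
  rw [← hκ, ← hθ, ← hδ] at hQb
  -- the momenta
  obtain ⟨N, hNdef⟩ : ∃ N, N = NN d L := ⟨_, rfl⟩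
  have hN0 : 0 < N := by rw [hNdef]; exact NN_pos
  obtain ⟨cnt, hcnt⟩ : ∃ cnt, cnt = ∑ Q : T d L, (1 - hi θ Q) := ⟨_, rfl⟩
  have hcnt1 : 1 ≤ cnt := by rw [hcnt]; exact cnt_ge θ
  have hcnt2 : cnt ≤ 2 * Real.exp (-(11 / 5) * y) * N := by
    rw [hcnt, hNdef, ← hθd]
    exact hLO d L θ hθ0.le hθ1 hθL
  have htδ : t ≤ δ := by
    rw [← htηδ]
    exact mul_le_of_le_one_left hδ0.le hη1
  obtain ⟨g1, hg1⟩ : ∃ g1, g1 = A0 * (97 / 50 * y) ^ 2 := ⟨_, rfl⟩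
  obtain ⟨g, hg⟩ : ∃ g, g = A0 * (81 / 40 * y) ^ 2 := ⟨_, rfl⟩
  have hlogδ : Real.log (1 / δ) = 97 / 50 * y := by
    rw [hδ, one_div, Real.log_inv, Real.log_exp]
    ring
  have hlogt : Real.log (1 / t) ≤ 81 / 40 * y := by
    rw [one_div, Real.log_inv]
    have h1 := Real.log_le_log (Real.exp_pos _) htl
    rw [Real.log_exp] at h1
    linarith
  have hg10 : 0 ≤ g1 := by rw [hg1]; positivity
  have hg0 : 0 ≤ g := by rw [hg]; positivity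
  have hyy2 : 1 ≤ y ^ 2 := one_le_pow₀ hy1
  have hA0y : 1 ≤ A0 * y ^ 2 := one_le_mul_of_one_le_of_one_le hA0 hyy2
  have hA1y : A1 * y = 5 * (A0 * y ^ 2) + 2 * y ^ 2 := by
    rw [hA1, hA2]
    ring
  have hg1e : g1 = 9409 / 2500 * (A0 * y ^ 2) := by
    rw [hg1]
    ring
  have hge : g = 6561 / 1600 * (A0 * y ^ 2) := by
    rw [hg]
    ring
  have hg1A : g1 + 2 ≤ A1 * y := by
    rw [hg1e, hA1y]
    linarith
  have hgA : g ≤ A1 * y := by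
    rw [hge, hA1y]
    linarith
  have ht2 : t ≤ 1 / 2 := htδ.trans hδ2
  have hsumδ : ∀ E : ℝ, ∑ k : T d L, (JJ E δ k)⁻¹ ≤ g1 * N := by
    intro E
    have h1 := dS δ (by rw [hδ]; exact hexle hy1 _ _ (by norm_num))
      (by rw [hδ]; exact hexle hy1 _ _ (by norm_num)) E
    rw [hlogδ, ← hg1, ← hNdef] at h1
    exact h1
  have hlogt0 : 0 ≤ Real.log (1 / t) := by
    apply Real.log_nonneg
    rw [le_div_iff₀ ht0]
    linarith
  have hsumt : ∀ E : ℝ, ∑ k : T d L, (JJ E t k)⁻¹ ≤ g * N := by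
    intro E
    have h1 := dS t htl (htu.trans (hexle hy1 _ _ (by norm_num))) E
    rw [← hNdef] at h1
    refine h1.trans ?_
    rw [hg]
    gcongr
  have hδinv : δ⁻¹ = Real.exp (97 / 50 * y) := by
    rw [hδ, ex_inv]
    norm_num
  have htinv : t⁻¹ ≤ Real.exp (81 / 40 * y) := by
    have h1 := inv_anti₀ (Real.exp_pos _) htl
    rw [ex_inv] at h1
    norm_num at h1 ⊢
    exact h1
  obtain ⟨a, ha⟩ : ∃ a, a = g1 + cnt / (N * δ) := ⟨_, rfl⟩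
  obtain ⟨v2, hv2⟩ : ∃ v2, v2 = g1 / δ := ⟨_, rfl⟩
  have hadm : ∀ E, Bs E → Adm (D0 E δ) (AA (d := d) (L := L) E δ θ) a v2 Q := by
    intro E hE
    rw [ha, hv2, hcnt, hNdef]
    exact hAD d L E δ θ g1 Q hδ0 hg10 hQ0 (by rw [← hNdef]; exact hsumδ E) (hQb E hE)
  -- bounds of the parameters
  have ha1 : a ≤ A1 * y := by
    refine le_trans ?_ hg1A
    rw [ha]
    have h1 : cnt / (N * δ) ≤ 2 := by
      rw [div_le_iff₀ (by positivity)]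
      have h2 : Real.exp (-(11 / 5) * y) ≤ δ := by
        rw [hδ]
        apply Real.exp_le_exp.2
        linarith
      calc cnt ≤ 2 * Real.exp (-(11 / 5) * y) * N := hcnt2
        _ ≤ 2 * δ * N := by gcongr
        _ = _ := by ring
    linarith
  have ha0 : 0 ≤ a := by rw [ha]; positivity
  have hv21 : v2 ≤ A1 * y * Real.exp (97 / 50 * y) := by
    rw [hv2, div_eq_mul_inv, hδinv]
    have : g1 ≤ A1 * y := by linarith
    gcongr
  have hv20 : 0 ≤ v2 := by rw [hv2]; positivity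
  -- the law
  obtain ⟨μ, hμdef⟩ : ∃ μ, μ = ν.map fun s => σ * s := ⟨_, rfl⟩
  have hmσ : Measurable fun s : ℝ => σ * s := by fun_prop
  have hμp : IsProbabilityMeasure μ := by
    rw [hμdef]
    exact Measure.isProbabilityMeasure_map hmσ.aemeasurable
  obtain ⟨β, hβ⟩ : ∃ β, β = b * σ := ⟨_, rfl⟩
  have hβ0 : 0 < β := by rw [hβ]; positivity
  have hμb : ∀ᵐ s ∂μ, |s| ≤ β := by
    rw [hμdef, ae_map_iff hmσ.aemeasurable (measurableSet_le (by fun_prop) (by fun_prop))]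
    filter_upwards [hνb] with s hs
    rw [abs_mul, abs_of_pos hσ0, hβ, mul_comm b]
    gcongr
  have hμ0 : ∫ s, s ∂μ = 0 := by
    rw [hμdef, integral_map hmσ.aemeasurable (by fun_prop), integral_const_mul, hν0, mul_zero]
  obtain ⟨s2, hs2⟩ : ∃ s2, ∫ s, s ^ 2 ∂μ = s2 := ⟨_, rfl⟩
  have hs20 : 0 ≤ s2 := by
    rw [← hs2]
    exact integral_nonneg fun s => sq_nonneg _
  have hs2β : s2 ≤ β ^ 2 := by
    rw [← hs2]
    have h1 : ∫ s, s ^ 2 ∂μ ≤ ∫ _s, β ^ 2 ∂μ := by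
      apply integral_mono_of_nonneg (Filter.Eventually.of_forall fun s => sq_nonneg _)
        (integrable_const _)
      filter_upwards [hμb] with s hs
      rw [← sq_abs s]
      exact pow_le_pow_left₀ (abs_nonneg _) hs 2
    rw [integral_const, probReal_univ, one_smul] at h1
    exact h1
  have hββ : β = b * Real.exp (-1 * y) := by rw [hβ, hσ]
  have hAy1 : 1 ≤ A1 * y := by linarith
  have hg1A' : g1 ≤ A1 * y := by linarith
  obtain ⟨v, hvd⟩ : ∃ v : ℝ, v = Real.exp (-(1 / 10000) * y) := ⟨_, rfl⟩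
  have hv : 0 < v := by rw [hvd]; positivity
  rw [← hvd] at hvV
  have hVv0 : 0 < Vv := hv.trans_le hvV
  have hs2V : s2 = Real.exp (-2 * y) * Vv := by
    rw [← hs2, hμdef, integral_map hmσ.aemeasurable (by fun_prop)]
    simp only [mul_pow]
    rw [integral_const_mul, hVv, hσ, ex_pow]
    norm_num
  have hs2p : 0 < s2 := by rw [hs2V]; positivity
  have hs2v : v * Real.exp (-2 * y) ≤ s2 := by
    rw [hs2V, mul_comm]
    gcongr
  have hts' : t ≤ s2 := by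
    refine le_trans ?_ hs2v
    have h1 : Real.exp (-(1 / 80) * y) ≤ v := by
      rw [hvd]
      exact hexle hy1 _ _ (by norm_num)
    calc t ≤ Real.exp (-(161 / 80) * y) := htu
      _ = Real.exp (-(1 / 80) * y) * Real.exp (-2 * y) := by
          rw [ex_mul]
          norm_num
      _ ≤ v * Real.exp (-2 * y) := by gcongr
  -- the conditions
  obtain ⟨k0, k1, k2, k3, k3', k4, k5, k6⟩ := hK5 β a v2 Q s2 cnt N η δ g1 hββ
    ha0 ha1 hAy1 hv20 hv21 hQ0 hQ1 hs2β hs20 hN0 hcnt1 hcnt2 hη (by rw [htηδ]; exact htl) hg10 hg1A'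
  obtain ⟨ε, hε⟩ : ∃ ε, ε = Real.exp (-(17 / 50) * y) := ⟨_, rfl⟩
  obtain ⟨e1, he1⟩ : ∃ e1, e1 = Real.exp (-(1 / 10) * y) := ⟨_, rfl⟩
  have hε0 : 0 < ε := by rw [hε]; positivity
  have he10 : 0 < e1 := by rw [he1]; positivity
  have he14 : e1 ≤ 1 / 4 := by rw [he1]; exact hx4
  have hε2 : ε ≤ 1 / 2 := by
    have : ε ≤ e1 := by
      rw [hε, he1]
      exact hexle hy1 _ _ (by norm_num)
    linarith
  obtain ⟨k7, k8⟩ := hM5 β s2 g η δ hββ hg0 hgA hs20 hs2β hη hη' hδ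
  rw [← hε] at k3 k3' k7 k8
  rw [← he1] at k4 k7 k8
  obtain ⟨c0, hc0⟩ : ∃ c0, c0 = 4 / 3 * (ε + e1 + (2 * η + 8 * s2 ^ 2 * g ^ 2 / δ ^ 2)) := ⟨_, rfl⟩
  rw [← hc0] at k7 k8
  rw [htηδ] at k8
  have hc00 : 0 ≤ c0 := by rw [hc0]; positivity
  have hg1' : 1 ≤ g := by
    rw [hge]
    linarith only [hA0y]
  have hc01 : c0 ≤ 1 := by
    have h1 : c0 ≤ c0 * g := le_mul_of_one_le_right hc00 hg1'
    have h2 : Real.exp (-(29 / 500) * y) ≤ 1 := Real.exp_le_one_iff.2 (by linarith)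
    linarith
  obtain ⟨D1, hD1⟩ : ∃ D, D = Real.exp (-(37 / 500) * y) := ⟨_, rfl⟩
  obtain ⟨D2, hD2⟩ : ∃ D, D = Real.exp (-(1 / 5) * y) := ⟨_, rfl⟩
  have hD10 : 0 < D1 := by rw [hD1]; positivity
  have hD20 : 0 < D2 := by rw [hD2]; positivity
  have hD2128 : D2 ≤ 1 / 128 := by
    rw [hD2]
    linarith
  have hsD : Real.sqrt D2 = Real.exp (-(1 / 10) * y) := by
    rw [hD2]
    exact sqrt_ex _ _ y (by norm_num)
  rw [← hD2] at k5
  rw [← hD1] at k6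
  -- the net
  obtain ⟨ζ, hζ⟩ : ∃ ζ, ζ = Real.exp (-10 * y) := ⟨_, rfl⟩
  have hζ0 : 0 < ζ := by rw [hζ]; positivity
  have hζinv : ζ⁻¹ = Real.exp (10 * y) := by
    rw [hζ, ex_inv]
    norm_num
  obtain ⟨M, hM⟩ : ∃ M : ℕ, M = ⌈3 * d / ζ⌉₊ + 1 := ⟨_, rfl⟩
  have hM1 : 3 * d + ζ ≤ ζ * M := by
    have h1 : 3 * d / ζ ≤ (⌈3 * d / ζ⌉₊ : ℝ) := Nat.le_ceil _
    rw [div_le_iff₀ hζ0] at h1
    rw [hM]
    push_cast
    linarith
  have hM2 : (2 * M + 1 : ℝ) ≤ (6 * d + 5) * Real.exp (10 * y) := by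
    have h1 := Nat.ceil_lt_add_one (show 0 ≤ 3 * d / ζ by positivity)
    have h2 : (1 : ℝ) ≤ Real.exp (10 * y) := Real.one_le_exp (by linarith)
    have h3 : 3 * d / ζ = 3 * d * Real.exp (10 * y) := by rw [div_eq_mul_inv, hζinv]
    rw [h3] at h1
    rw [hM, h3]
    push_cast
    linarith
  obtain ⟨τ, hτ⟩ : ∃ τ, τ = Real.exp (-(209 / 100) * y) := ⟨_, rfl⟩
  have hτ0 : 0 < τ := by rw [hτ]; positivity
  -- the cut-off
  obtain ⟨ℓ, hℓ⟩ : ∃ ℓ, ℓ = 2 * Real.exp (5 * y) := ⟨_, rfl⟩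
  have hℓ0 : 0 < ℓ := by rw [hℓ]; positivity
  have hL4 : 4 * ℓ + 4 < L := by
    have h2 : (1 : ℝ) ≤ Real.exp (5 * y) := Real.one_le_exp (by linarith)
    have h3 : 2 * Real.exp (6 * y) + 1 ≤ L := by
      have h1 := Nat.le_ceil (Real.exp (6 * y))
      rw [hL]
      push_cast
      linarith
    have h4 := Real.exp_pos (6 * y)
    rw [hℓ]
    linarith
  obtain ⟨ω1, hω1⟩ : ∃ ω1, ω1 = Real.exp (-(1 / 50) * y) := ⟨_, rfl⟩
  have hts : η * δ ≤ s2 := by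
    rw [htηδ]
    exact hts'
  have hyr0 : Real.exp (-1 * y) ≤ r0 := by
    rw [div_mul_eq_mul_div, one_mul, div_le_one hr0] at n9
    exact n9
  have hζr0 : ζ ≤ r0 := by
    refine le_trans ?_ hyr0
    rw [hζ]
    exact hexle hy1 _ _ (by norm_num)
  have hs2g : s2 * (2 * g) ≤ Real.exp (-1 * y) := by
    calc s2 * (2 * g) ≤ (b * Real.exp (-1 * y)) ^ 2 * (2 * (A1 * y)) := by
          rw [hββ] at hs2β
          gcongr
      _ = 2 * b ^ 2 * A2 * y ^ 2 * Real.exp (-2 * y) := by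
          rw [mul_pow, ex_pow, hA1]
          norm_num
          ring
      _ ≤ _ := n10
  have hgood := goodK_prob (d := d) (L := L) hES hTH hFL hIN hSU Bs δ θ η τ ζ a v2 Q
    β s2 g g1 ε e1 c0 ω1 D1 D2 M hδ0 hη0 hη1 hτ0 hadm μ hβ0 hμb hμ0 hs2
    hs2p k1 k2 hε0.le hε2 he10.le he14 k3' (by rw [htηδ, ← hNdef]; exact hsumt) hg1'
    (by rw [← hNdef]; exact hsumδ) (by rw [← hcnt, ← hNdef]; exact k4) hc0 hc01
    hD10 k6 hD20 (by rw [hsD]; exact n6) hD2128 k5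
  rw [hμdef, ← hcnt, ← hNdef] at hgood
  -- the form bound
  obtain ⟨kf, hkf⟩ : ∃ kf, kf = Real.exp (-(23 / 1000) * y) := ⟨_, rfl⟩
  have hkf0 : 0 < kf := by rw [hkf]; positivity
  obtain ⟨p, hp⟩ : ∃ p : ℕ, p = ⌈Real.exp (1 / 80 * y)⌉₊ := ⟨_, rfl⟩
  have hp1 : Real.exp (1 / 80 * y) ≤ p := by
    rw [hp]
    exact Nat.le_ceil _
  have hp0 : p ≠ 0 := by
    intro h0
    rw [h0] at hp1
    have := Real.exp_pos (1 / 80 * y)
    push_cast at hp1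
    linarith
  obtain ⟨ρ, hρ⟩ : ∃ ρ, ρ = 2 * d * Real.exp (-(119 / 40) * y) := ⟨_, rfl⟩
  have hρ0 : 0 < ρ := by rw [hρ]; positivity
  have hζt : ζ * t⁻¹ ≤ Real.exp (-(119 / 40) * y) := by
    calc ζ * t⁻¹ ≤ Real.exp (-10 * y) * Real.exp (81 / 40 * y) := by
          rw [hζ]
          gcongr
      _ = Real.exp (-(319 / 40) * y) := by
          rw [ex_mul]
          norm_num
      _ ≤ _ := hexle hy1 _ _ (by norm_num)
  obtain ⟨ρm, hρm⟩ : ∃ ρm, ρm = ρ - ζ * t⁻¹ := ⟨_, rfl⟩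
  have hρmd : d * Real.exp (-(119 / 40) * y) ≤ ρm := by
    have h1 := Real.exp_pos (-(119 / 40) * y)
    have h2 : Real.exp (-(119 / 40) * y) ≤ d * Real.exp (-(119 / 40) * y) :=
      le_mul_of_one_le_left h1.le (by linarith only [hd2])
    rw [hρm, hρ]
    linarith only [h2, hζt]
  have hρm0 : 0 ≤ ρm := le_trans (by positivity) hρmd
  have hρℓ : 2 * d / ℓ * t⁻¹ ≤ ρm := by
    refine le_trans ?_ hρmd
    calc 2 * d / ℓ * t⁻¹ ≤ 2 * d / ℓ * Real.exp (81 / 40 * y) := by gcongr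
      _ = d * ((Real.exp (5 * y))⁻¹ * Real.exp (81 / 40 * y)) := by
        rw [hℓ]
        field_simp
      _ = _ := by
        rw [ex_inv, ex_mul]
        norm_num
  have hR1 : 1 ≤ Real.exp (Real.exp (y / 100)) := Real.one_le_exp (Real.exp_pos _).le
  have hdom : DomBy ν c := by
    rw [hc]
    exact dom_bdd ν b hb hνb hν0
  obtain ⟨ρ2, hρ2⟩ : ∃ ρ2, ρ2 = (8 * d + 4) * Real.exp (-(19 / 20) * y) := ⟨_, rfl⟩
  obtain ⟨r1, r2, -⟩ := hC5 β s2 g1 (4 * g) η δ t kf ρ ρ2 ζ τ (2 * (ρ + ζ * t⁻¹))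
    (2 * (ρ2 + ζ * (2 * (t⁻¹) ^ 2))) (Real.sqrt ((4 * g + 1) / t)) hββ hs2p hs2β hAy1 hg1A'
    (by linarith) (by linarith) hη hη' hδ htηδ.symm hkf hρ hρ2 hζ hτ rfl rfl rfl
  have hkη0 : 0 ≤ kf + η := by positivity
  have hkf2 : kf ≤ 1 / 2 := by
    have h1 : 0 ≤ τ / t := by positivity
    linarith
  obtain ⟨sv, hsv⟩ : ∃ sv, sv = (Real.sqrt η)⁻¹ * ((Real.sqrt δ)⁻¹ * (2 * (ρ + ζ * t⁻¹) +
      τ * Real.sqrt ((4 * g + 1) / t)) + η * (2 * Real.sqrt g1 +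
      2 * (kf + η) * (Real.sqrt δ * Real.sqrt ((4 * g + 1) / t)) +
      2 * ((Real.sqrt δ)⁻¹ * (2 * (ρ + ζ * t⁻¹))))) := ⟨_, rfl⟩
  have hs8 := hS8 g1 (4 * g) η δ t kf ρ ζ τ (2 * (ρ + ζ * t⁻¹)) (Real.sqrt ((4 * g + 1) / t))
    sv ω1 hAy1 hg10 hg1A' (by linarith) (by linarith) hη hη' hδ htηδ.symm hkf hρ hζ hτ rfl rfl
    hsv hω1
  have ht1 : t ≤ Real.exp (-1 * y) := htu.trans (hexle hy1 _ _ (by norm_num))
  have hfd := dF t htl ht1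
  obtain ⟨X0, hX0⟩ : ∃ X0, X0 = 56 * d / L / t ^ 2 := ⟨_, rfl⟩
  rw [← hX0] at hfd
  obtain ⟨w, hw⟩ : ∃ w, w = Real.sqrt (t * s2) := ⟨_, rfl⟩
  rw [hββ] at hs2β
  obtain ⟨w2, w0, hgeo⟩ := hG8 s2 t L w (by rw [← hvd]; exact hs2v) hs2β htl htu hL1 hw
  obtain ⟨Cb, hCb⟩ : ∃ Cb, Cb = 2 * d * (Kp + 8) := ⟨_, rfl⟩
  obtain ⟨X, hX⟩ : ∃ X, X = X0 + Ch * (s2 * (2 * g) + t + ζ) ^ (1 / 8 : ℝ) := ⟨_, rfl⟩
  obtain ⟨q1, q2, q3, q4⟩ := hT8 s2 g c0 t (Cb * w) w (Real.exp (-1 * y)) ζ (t / s2) X0 X L Cb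
    hg1' hgA (by rw [← hvd]; exact hs2v) hs2β hc00 k7 k8 htl htu hL1 w2 w0 hCb rfl rfl hζ rfl hfd.X00 hX0.le hX
  rw [← hββ] at hs2β
  rw [← hδ] at q3
  have hmean : ∀ E1 E : ℝ, Bs E1 → B' E → |E1 - E| ≤ ζ → ∀ (pv : Fin d → ℝ) (n : Fin d → ℤ),
      (∀ i, |pv i - 2 * Real.pi * n i / L| ≤ 7 / L) → ∑ i, pv i ^ 2 ≤ Kp * (t * s2) →
      ‖∫ V, FP (d := d) (L := L) E1 δ θ η (fun i => ((n i : ℤ) : ZMod L)) V
        ∂(PP (T d L) (ν.map fun s => σ * s)) - ((Tg γ0 γ1 t s2 E pv : ℝ) : ℂ)‖ ≤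
        Real.exp (-(1 / 170) * y) := by
    intro E1 E hE1 hE hEE pv n hpn hpv
    have hpi : ∀ i, pv i ^ 2 ≤ Kp * (t * s2) := fun i =>
      (Finset.single_le_sum (f := fun i => pv i ^ 2) (fun i _ => sq_nonneg _)
        (Finset.mem_univ i)).trans hpv
    have hgg := fun i => hgeo (pv i) (2 * Real.pi * n i / L) (hpi i) (hpn i)
    rw [← hμdef]
    have hBt := Bt_bd (L := L) n ((Kp + 8) * w) fun i => (hgg i).1
    have hga := gam_bd (L := L) n ((Kp + 8) * w) fun i => (hgg i).1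
    refine mean8 (L := L) hES hFA E1 δ θ η a v2 Q β s2 g ε e1 c0 _ hδ0 hη0 hη1 (hadm E1 hE1) μ
      hβ0 hμb hμ0 hs2 hs2p k0 k2 hε0.le hε2 he10.le he14 k3 (by rw [htηδ, ← hNdef]; exact hsumt)
      hg1' (by rw [← hcnt, ← hNdef]; exact k4) hc0 hc01 hts t (Cb * w) Kp ml X
      (Real.exp (-1 * y)) ζ (t / s2) htηδ.symm rfl U Ch X0 γ0 γ1 hfd E (hB1 E hE).2.1 hEE
      (fun x hx => hB2 E1 x hE1 (hx.trans (hs2g.trans hyr0))) q2 hml (hB3 E hE) hX q1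
      ?_ ?_ q3 pv hpv ?_ _ q4
    · refine hBt.trans (le_of_eq ?_)
      rw [hCb]
      ring
    · refine hga.trans ?_
      rw [hCb]
      have e1 : (2 * d * (Kp + 8) * w) ^ 2 = (4 * d ^ 2) * ((Kp + 8) * w) ^ 2 := by ring
      rw [e1]
      apply mul_le_mul_of_nonneg_right _ (sq_nonneg _)
      have e2 : (4 * (d : ℝ) ^ 2) = d * (4 * d) := by ring
      rw [e2]
      exact le_mul_of_one_le_right (by linarith only [hd2]) (by linarith only [hd2])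
    · intro i
      rw [sg_int]
      exact (hgg i).2
  have hfin := mainK (L := L) (by omega) Bs B' (Tg γ0 γ1 t s2) ν c hdom σ
    (Real.exp (Real.exp (y / 100))) δ θ η kf g1 ρm τ (4 * g) ζ ω1 (3 * d) sv
    (Real.exp (-(1 / 60) * y)) (Real.exp (-(1 / 170) * y)) (Real.exp (-(1 / 180) * y))
    (Kp * (t * s2)) ℓ M hσ0 hR1 hδ0 hδ2 hη0 hη1 ?_ ?_ hkf0 hkf2 hζ0 hM1
    (fun E hE => ⟨(hB1 E hE).1, fun j hj => (hB1 E hE).2.2 _ (hj.trans hζr0)⟩)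
    (by rw [← hNdef]; exact hsumδ) hg10 hρm0 hτ0.le (by linarith) (2 * (ρ + ζ * t⁻¹))
    (by rw [htηδ, hρm]; ring) (by rw [htηδ]; exact r2) ?_ (Real.sqrt ((4 * g + 1) / t))
    (by rw [htηδ]) hsv (by rw [htηδ]; exact hs8) hℓ0 hL4 (by rw [htηδ]; exact hρℓ) hmean
    ?_ p hp0 _ (Real.exp (-Real.exp (y / 100))) hgood ?_
  · obtain ⟨G, hG, hP, hLL⟩ := hfin
    refine ⟨G, hG, hP, fun ξ hξ => ?_⟩
    have h1 := hLL ξ hξ
    rw [htηδ] at h1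
    rw [← hσ, ← hs2V, ← hζ]
    exact h1
  · rw [htηδ]
    have h1 : ζ ≤ 1 / 4 := by
      refine le_trans ?_ hx4
      rw [hζ]
      exact hexle hy1 _ _ (by norm_num)
    linarith
  · rw [htηδ, hζ]
    exact (hexle hy1 _ _ (by norm_num)).trans htl
  · rw [htηδ]
    linarith
  · rw [htηδ]
    have hd0 : (0 : ℝ) ≤ d := by positivity
    have u1 : 4 * d * (t⁻¹) ^ 4 / ℓ ^ 2 ≤ 1 / 4 * Real.exp (-(1 / 180) * y) := by
      calc 4 * d * (t⁻¹) ^ 4 / ℓ ^ 2 ≤ 4 * d * (Real.exp (81 / 40 * y)) ^ 4 / ℓ ^ 2 := by gcongr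
        _ = d * ((Real.exp (81 / 40 * y)) ^ 4 * ((Real.exp (5 * y))⁻¹) ^ 2) := by
            rw [hℓ]
            field_simp
            ring
        _ = 1 / 4 * (4 * d * Real.exp (-(19 / 10) * y)) := by
            rw [ex_inv, ex_pow, ex_pow, ex_mul]
            norm_num
            ring
        _ ≤ _ := by gcongr
    have u2 : 28 * d * (ℓ / L) * (4 * g + 1) ≤ 1 / 4 * Real.exp (-(1 / 180) * y) := by
      have u3 : ℓ / L ≤ 2 * Real.exp (-1 * y) := by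
        rw [div_le_iff₀ hLp, hℓ]
        calc 2 * Real.exp (5 * y) = 2 * Real.exp (-1 * y) * Real.exp (6 * y) := by
              rw [mul_assoc, ex_mul]
              norm_num
          _ ≤ _ := by gcongr
      calc 28 * d * (ℓ / L) * (4 * g + 1) ≤ 28 * d * (2 * Real.exp (-1 * y)) * (5 * (A1 * y)) := by
            have : 4 * g + 1 ≤ 5 * (A1 * y) := by linarith
            gcongr
        _ = 1 / 4 * (1120 * d * A2 * y ^ 2 * Real.exp (-1 * y)) := by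
            rw [hA1]
            ring
        _ ≤ _ := by gcongr
    linarith
  -- the probability
  have hNL : N = (L : ℝ) ^ d := hNdef
  have := hPr (Real.exp (y / 100)) (Real.exp (Real.exp (y / 100))) δ kf σ g1 τ β N cnt D1 D2 L
    p M rfl rfl hL2 hδ hkf hσ hg10 hg1A' hp hNL hN0 hτ hββ hcnt1 hcnt2 hD1 hD2 hM2
  rw [hω1]
  exact this

end Pool.Agent.H189.G
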