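import Pool.Agent.H189.G.Event
import Pool.Agent.R988.Loc2

/-! The scales for the Gaussian model: `B = σ^{-1/25000}`, `c = σ B`. -/

set_option autoImplicit false

open scoped BigOperators Topology
open MeasureTheory Filter Set ProbabilityTheory

namespace Pool.Agent.H189.G

open Pool.Agent.R988.Tor (ev1 ev_extract)

/-- the level of the clipping -/
noncomputable def Bs (σ : ℝ) : ℝ := σ ^ (-(1 / 25000) : ℝ)

/-- the coupling constant after the clipping -/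
noncomputable def cs (σ : ℝ) : ℝ := σ ^ (24999 / 25000 : ℝ)

/-- the second moment of the law after the clipping -/
noncomputable def Vs (σ : ℝ) : ℝ := ∫ s, s ^ 2 ∂(clLaw (Bs σ))

/-- the logarithm of the radius of the box -/
noncomputable def Xs (σ : ℝ) : ℝ := σ ^ (-(1 / 13000) : ℝ)

/-- the facts about the scales -/
structure Scales (d : ℕ) (σ : ℝ) : Prop where
  pos : 0 < σ
  le1 : σ ≤ 1
  cpos : 0 < cs σ
  cle : cs σ ≤ 1
  Bpos : 0 < Bs σ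
  cB : cs σ = σ * Bs σ
  V0 : cs σ ^ (1 / 10000 : ℝ) ≤ Vs σ
  Vpos : 0 < Vs σ
  s1 : cs σ ^ 2 * Vs σ ≤ σ ^ 2
  s2 : σ ^ 2 * (1 - 8 * Real.exp (-(Bs σ ^ 2 / 8))) ≤ cs σ ^ 2 * Vs σ
  s3 : σ ^ 2 / 2 ≤ cs σ ^ 2 * Vs σ
  X1 : 1 ≤ Xs σ
  XB : (24 * d + 24) * Xs σ ≤ Bs σ ^ 2
  XY : (2 * d + 3) * (2 * Xs σ) ≤ cs σ ^ (-(1 / 101) : ℝ)

theorem scales (d : ℕ) : ∀ᶠ σ : ℝ in 𝓝[>] 0, Scales d σ := by
  have hmem : Set.Ioc (0 : ℝ) 1 ∈ 𝓝[>] (0 : ℝ) := Ioc_mem_nhdsGT one_pos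
  filter_upwards [hmem, ev1 (24 * d + 24) (1 / 12500 - 1 / 13000) (by norm_num),
    ev1 (2 * (2 * d + 3)) (24999 / 2525000 - 1 / 13000) (by norm_num),
    ev1 (8 * 15) (1 / 12500) (by norm_num),
    ev1 2 (24999 / 250000000 - 2 / 25000) (by norm_num)] with σ hσ h1 h2 h3 h4
  obtain ⟨hσ0, hσ1⟩ := hσ
  have hpw : ∀ p q : ℝ, σ ^ p * σ ^ q = σ ^ (p + q) := fun p q => (Real.rpow_add hσ0 p q).symm
  have hpos : ∀ p : ℝ, 0 < σ ^ p := fun p => Real.rpow_pos_of_pos hσ0 p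
  have hcc : ∀ p : ℝ, cs σ ^ p = σ ^ (24999 / 25000 * p) := fun p => by
    unfold cs
    rw [← Real.rpow_mul hσ0.le]
  have hB : 0 < Bs σ := hpos _
  have hc : 0 < cs σ := hpos _
  have hcB : cs σ = σ * Bs σ := by
    unfold cs Bs
    nth_rewrite 2 [← Real.rpow_one σ]
    rw [hpw]
    norm_num
  have hB2 : Bs σ ^ 2 = σ ^ (-(1 / 12500) : ℝ) := by
    unfold Bs
    rw [← Real.rpow_natCast, ← Real.rpow_mul hσ0.le]
    norm_num
  have hX1 : 1 ≤ Xs σ := Real.one_le_rpow_of_pos_of_le_one_of_nonpos hσ0 hσ1 (by norm_num)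
  have hB120 : 8 * 15 ≤ Bs σ ^ 2 := by
    rw [hB2]
    have e1 : σ ^ (1 / 12500 : ℝ) * σ ^ (-(1 / 12500) : ℝ) = 1 := by
      rw [hpw]
      norm_num
    have := hpos (-(1 / 12500))
    calc (8 * 15 : ℝ) = (8 * 15) * (σ ^ (1 / 12500 : ℝ) * σ ^ (-(1 / 12500) : ℝ)) := by
          rw [e1, mul_one]
      _ = (8 * 15 * σ ^ (1 / 12500 : ℝ)) * σ ^ (-(1 / 12500) : ℝ) := by ring
      _ ≤ 1 * σ ^ (-(1 / 12500) : ℝ) := by gcongr
      _ = _ := one_mul _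
  have hexp : 8 * Real.exp (-(Bs σ ^ 2 / 8)) ≤ 1 / 2 := by
    have e1 : Real.exp (-(Bs σ ^ 2 / 8)) ≤ (16 : ℝ)⁻¹ := by
      rw [Real.exp_neg]
      apply inv_anti₀ (by norm_num)
      have := Real.add_one_le_exp (Bs σ ^ 2 / 8)
      linarith
    linarith
  obtain ⟨v1, v2⟩ := cl_var (Bs σ) hB
  rw [← clLaw_var (Bs σ)] at v1 v2
  have hV : Vs σ = ∫ s, s ^ 2 ∂(clLaw (Bs σ)) := rfl
  rw [← hV] at v1 v2
  have hcV : cs σ ^ 2 * Vs σ = σ ^ 2 * (Bs σ ^ 2 * Vs σ) := by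
    rw [hcB]
    ring
  have hVlow : 1 / 2 ≤ Bs σ ^ 2 * Vs σ := by linarith
  refine ⟨hσ0, hσ1, hc, Real.rpow_le_one hσ0.le hσ1 (by norm_num), hB, hcB, ?_, ?_, ?_, ?_, ?_,
    hX1, ?_, ?_⟩
  · rw [hcc]
    have e1 : σ ^ (24999 / 25000 * (1 / 10000) : ℝ) * (2 * Bs σ ^ 2) ≤ 1 := by
      rw [hB2]
      calc σ ^ (24999 / 25000 * (1 / 10000) : ℝ) * (2 * σ ^ (-(1 / 12500) : ℝ)) =
          2 * (σ ^ (24999 / 25000 * (1 / 10000) : ℝ) * σ ^ (-(1 / 12500) : ℝ)) := by ring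
        _ = 2 * σ ^ (24999 / 250000000 - 2 / 25000 : ℝ) := by
            rw [hpw]
            norm_num
        _ ≤ 1 := h4
    have hB20 : 0 < Bs σ ^ 2 := by positivity
    have e2 : σ ^ (24999 / 25000 * (1 / 10000) : ℝ) * (2 * Bs σ ^ 2) ≤ Vs σ * (2 * Bs σ ^ 2) := by
      linarith
    exact le_of_mul_le_mul_right e2 (by positivity)
  · by_contra hcon
    have : Bs σ ^ 2 * Vs σ ≤ 0 := mul_nonpos_of_nonneg_of_nonpos (by positivity) (not_lt.1 hcon)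
    linarith
  · rw [hcV]
    exact mul_le_of_le_one_right (by positivity) v2
  · rw [hcV]
    gcongr
  · rw [hcV]
    have : 0 ≤ σ ^ 2 := by positivity
    nlinarith
  · rw [hB2]
    have e1 : Xs σ = σ ^ (1 / 12500 - 1 / 13000 : ℝ) * σ ^ (-(1 / 12500) : ℝ) := by
      unfold Xs
      rw [hpw]
      norm_num
    rw [e1]
    have := hpos (-(1 / 12500))
    calc (24 * (d : ℝ) + 24) * (σ ^ (1 / 12500 - 1 / 13000 : ℝ) * σ ^ (-(1 / 12500) : ℝ)) =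
        ((24 * (d : ℝ) + 24) * σ ^ (1 / 12500 - 1 / 13000 : ℝ)) * σ ^ (-(1 / 12500) : ℝ) := by ring
      _ ≤ 1 * σ ^ (-(1 / 12500) : ℝ) := by gcongr
      _ = _ := one_mul _
  · rw [hcc]
    have e1 : Xs σ = σ ^ (24999 / 2525000 - 1 / 13000 : ℝ) *
        σ ^ (24999 / 25000 * -(1 / 101) : ℝ) := by
      unfold Xs
      rw [hpw]
      norm_num
    rw [e1]
    have := hpos (24999 / 25000 * -(1 / 101))
    calc (2 * (d : ℝ) + 3) * (2 * (σ ^ (24999 / 2525000 - 1 / 13000 : ℝ) *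
        σ ^ (24999 / 25000 * -(1 / 101) : ℝ))) =
        (2 * (2 * (d : ℝ) + 3) * σ ^ (24999 / 2525000 - 1 / 13000 : ℝ)) *
        σ ^ (24999 / 25000 * -(1 / 101) : ℝ) := by ring
      _ ≤ 1 * σ ^ (24999 / 25000 * -(1 / 101) : ℝ) := by gcongr
      _ = _ := one_mul _

end Pool.Agent.H189.G
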