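import Pool.Agent.H189.G.Scale
import Pool.Agent.H189.G.Base
import Pool.Agent.H189.Loc.Win

/-! One energy window on the torus for Gaussian variables. -/

set_option autoImplicit false
set_option linter.unusedVariables false

open scoped BigOperators ComplexConjugate Topology
open Set MeasureTheory Filter ProbabilityTheory

namespace Pool.Agent.H189.G

open Pool.Agent.R988 Pool.Agent.R988.Tor
open Pool.Agent.H4R2.LO (Zd)
open Pool.Agent.TH794.HK (ph Tg)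
open Pool.Agent.TH794.QE (Rs RegE)

theorem windowG (d : ℕ) (hd : 3 ≤ d) (κ : ℝ) (hκ : 0 < κ) (hκ1 : κ ≤ 1) : ∃ m1 : ℝ, 0 < m1 ∧
    ∀ ε τ : ℝ, 0 < ε → 0 < τ → ∃ σ0 : ℝ, 0 < σ0 ∧ σ0 ≤ 1 ∧
      ∀ σ : ℝ, 0 < σ → σ ≤ σ0 →
      ∃ G : Set (Zd d → ℝ), MeasurableSet G ∧
        1 - Real.exp (-σ ^ (-(1 / 13000) : ℝ)) ≤
          (Measure.infinitePi fun _ : Zd d => gaussianReal 0 1).real G ∧
        ∀ ξ ∈ G, ∀ (L : ℕ) [NeZero L], σ ^ (-7 : ℝ) ≤ L →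
          (L : ℝ) ≤ Real.exp (σ ^ (-(1 / 13000) : ℝ)) →
        ∀ (ι : Type) [Fintype ι] [DecidableEq ι] (ψ : ι → TT d L → ℂ) (E : ι → ℝ),
          EB (fun x => 2 * d - σ * ξ (Tor.em x)) ψ E →
        ∀ e : ℝ, |2 * (d : ℝ) - e| ≤ 2 * d - κ →
          m1 / 16 * σ ^ (253 / 125 : ℝ) * (Fintype.card (TT d L)) ≤
            ((Finset.univ.filter fun j => |E j - e| ≤ σ ^ (253 / 125 : ℝ)).card : ℝ) ∧
          ∀ i : Fin d, (((Finset.univ.filter fun j => |E j - e| ≤ σ ^ (253 / 125 : ℝ) ∧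
            ∃ y : ZMod L, ε ≤ ∑ x : TT d L, if |((x i - y).valMinAbs : ℝ)| ≤
              σ ^ (-(181 / 90) : ℝ) then ‖ψ j x‖ ^ 2 else 0).card : ℝ)) * ε ^ 2 ≤
            16 * σ ^ (253 / 125 : ℝ) * (Fintype.card (TT d L)) * τ := by
  have hdR : (3 : ℝ) ≤ d := by exact_mod_cast hd
  obtain ⟨m1, C0, hm1, hC0, hblk⟩ := bulk d hd κ hκ hκ1
  refine ⟨m1, hm1, fun ε τ hε hτ => ?_⟩
  obtain ⟨θ, hθ⟩ : ∃ θ, θ = τ / (16 * C0) := ⟨_, rfl⟩
  have hθ0 : 0 < θ := by rw [hθ]; positivity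
  obtain ⟨K, hK⟩ : ∃ K, K = 16 * C0 ^ 3 / (τ * (θ ^ 2 * m1)) := ⟨_, rfl⟩
  have hK0 : 0 < K := by rw [hK]; positivity
  obtain ⟨c0, hc0, h4⟩ := baseG d hd κ hκ hκ1 K hK0.le
  obtain ⟨t0, ht0, ht01, hev⟩ := ev_extract (P := fun t : ℝ =>
    (8 / τ * t ^ (1 / 201 : ℝ) ≤ 1 ∧ 10 / m1 * t ^ (1 / 201 : ℝ) ≤ 1) ∧
    (8 * (30720 * d) / τ * t ^ (116 / 125 : ℝ) ≤ 1 ∧
      10 * (30720 * d) / m1 * t ^ (116 / 125 : ℝ) ≤ 1) ∧
    4 * K * t ^ (2 / 1125 : ℝ) ≤ 1 ∧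
    2 * (2 * Real.pi) ^ 2 * (1 + 4 * C0 / τ) ^ 2 / K * t ^ (1247 / 125 : ℝ) ≤ 1 ∧
    8 * t ^ (919 / 1000000 : ℝ) ≤ 1 ∧ 1 / c0 * t ^ (24999 / 25000 : ℝ) ≤ 1 ∧
    6 * t ^ (7 : ℝ) ≤ 1 ∧ Scales d t) (by
    filter_upwards [ev1 (8 / τ) (1 / 201) (by norm_num), ev1 (10 / m1) (1 / 201) (by norm_num),
      ev1 (8 * (30720 * d) / τ) (116 / 125) (by norm_num),
      ev1 (10 * (30720 * d) / m1) (116 / 125) (by norm_num),
      ev1 (4 * K) (2 / 1125) (by norm_num),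
      ev1 (2 * (2 * Real.pi) ^ 2 * (1 + 4 * C0 / τ) ^ 2 / K) (1247 / 125) (by norm_num),
      ev1 8 (919 / 1000000) (by norm_num), ev1 (1 / c0) (24999 / 25000) (by norm_num),
      ev1 6 7 (by norm_num), scales d] with t a1 a2 a3 a4 a5 a6 a7 a8 a9 a10
    exact ⟨⟨a1, a2⟩, ⟨a3, a4⟩, a5, a6, a7, a8, a9, a10⟩)
  refine ⟨t0, ht0, ht01, ?_⟩
  intro σ hσ hσ0
  have hσ1 : σ ≤ 1 := hσ0.trans ht01
  obtain ⟨⟨a1, a2⟩, ⟨a3, a4⟩, a5, a6, a7, a8, a9, hS⟩ := hev σ hσ hσ0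
  have hcc0 : cs σ ≤ c0 := by
    have : 1 / c0 * σ ^ (24999 / 25000 : ℝ) = cs σ / c0 := by
      unfold cs
      ring
    rw [this, div_le_one hc0] at a8
    exact a8
  obtain ⟨G, hG, hP, hGp⟩ := h4 (cs σ) hS.cpos hcc0 (clLaw (Bs σ)) inferInstance
    (clLaw_bd _) (Vs σ) (clLaw_mean _) rfl hS.V0
  have hpw : ∀ p q : ℝ, σ ^ p * σ ^ q = σ ^ (p + q) := fun p q =>
    (Real.rpow_add hσ p q).symm
  have hpos : ∀ p : ℝ, 0 < σ ^ p := fun p => Real.rpow_pos_of_pos hσ p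
  have hone : ∀ p : ℝ, p ≤ 0 → 1 ≤ σ ^ p := fun p hp =>
    Real.one_le_rpow_of_pos_of_le_one_of_nonpos hσ hσ1 hp
  have hle1 : ∀ p : ℝ, 0 ≤ p → σ ^ p ≤ 1 := fun p hp =>
    Real.rpow_le_one hσ.le hσ1 hp
  have hcc : ∀ p : ℝ, cs σ ^ p = σ ^ (24999 / 25000 * p) := fun p => by
    unfold cs
    rw [← Real.rpow_mul hσ.le]
  obtain ⟨X, hX⟩ : ∃ X, X = σ ^ (-(1 / 13000) : ℝ) := ⟨_, rfl⟩
  obtain ⟨Y, hY⟩ : ∃ Y, Y = cs σ ^ (-(1 / 101) : ℝ) := ⟨_, rfl⟩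
  have hXs : Xs σ = X := by rw [hX]; rfl
  have hX1 : 1 ≤ X := by rw [← hXs]; exact hS.X1
  have hXY : (2 * d + 3) * (2 * X) ≤ Y := by
    rw [← hXs, hY]
    exact hS.XY
  have hXY1 : X ≤ Y := by nlinarith
  rw [← hY] at hP
  obtain ⟨G1, hG1, hP1, hGp1⟩ := Tor.union (clLaw (Bs σ)) G hG (Real.exp (-Y)) (Real.exp_pos _).le
    hP ⌊Real.exp X⌋₊
  have hNX : ((⌊Real.exp X⌋₊ : ℕ) : ℝ) ≤ Real.exp X := Nat.floor_le (Real.exp_pos _).le
  have hP1' : 1 - Real.exp (-(2 * X)) ≤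
      (Measure.infinitePi fun _ : Zd d => clLaw (Bs σ)).real G1 := by
    have := Pool.Agent.H189.Loc.exp_count d (2 * X) Y (by linarith) hXY _
      (hNX.trans (Real.exp_le_exp.2 (by linarith)))
    linarith
  obtain ⟨G', hG', hP', hGp'⟩ := event (Bs σ) hS.Bpos ⌊Real.exp X⌋₊ G1 hG1 _ hP1'
  refine ⟨G', hG', ?_, ?_⟩
  · rw [← hX]
    have := event_num d X (2 * X) (Bs σ) hX1 (by rw [← hXs]; exact hS.XB) le_rfl _ hNX
    linarith
  intro ξ hξ L _ hL1 hL2 ι _ _ ψ E hEB e he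
  rw [← hX] at hL2
  obtain ⟨hξ1, hξ2⟩ := hGp' ξ hξ
  obtain ⟨ω, hω⟩ : ∃ ω : Zd d → ℝ, ω = fun x => cl (Bs σ) (-ξ x) := ⟨_, rfl⟩
  rw [← hω] at hξ1
  obtain ⟨hωG, hωs⟩ := hGp1 ω hξ1
  have hLN : L ≤ ⌊Real.exp X⌋₊ := Nat.le_floor hL2
  have hωb := (hGp ω hωG).1
  -- the potentials agree
  have hEB' : EB (fun x : TT d L => 2 * d + cs σ * ω (Tor.em x)) ψ E := by
    have e1 : (fun x : TT d L => 2 * d - σ * ξ (Tor.em x)) =
        fun x : TT d L => 2 * d + cs σ * ω (Tor.em x) := by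
      funext x
      have h1 : |ξ (Tor.em x)| ≤ Bs σ := by
        apply hξ2
        refine (pi_norm_le_iff_of_nonneg (Nat.cast_nonneg _)).2 fun i => ?_
        rw [Int.norm_eq_abs]
        have h2 := Tor.em_nonneg x i
        have h3 := Tor.em_lt x i
        rw [abs_of_nonneg (by exact_mod_cast h2)]
        have h4 : ((Tor.em x : Zd d) i : ℝ) < L := by exact_mod_cast h3
        have h5 : (L : ℝ) ≤ (⌊Real.exp X⌋₊ : ℕ) := by exact_mod_cast hLN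
        linarith
      rw [hω]
      simp only
      rw [cl_eq hS.Bpos (by rw [abs_neg]; exact h1), hS.cB]
      have := hS.Bpos.ne'
      field_simp
      ring
    rw [← e1]
    exact hEB
  -- the box
  have hL6 : (6 : ℝ) ≤ L := by
    refine le_trans ?_ hL1
    rw [Real.rpow_neg hσ.le, le_inv_comm₀ (by norm_num) (hpos _)]
    rw [inv_eq_one_div, le_div_iff₀ (by norm_num)]
    linarith
  have hL0 : (0 : ℝ) < L := by linarith
  have hL6' : 6 ≤ L := by exact_mod_cast hL6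
  obtain ⟨c, hc⟩ : ∃ c : Zd d, c = fun _ => ((L / 2 : ℕ) : ℤ) := ⟨_, rfl⟩
  obtain ⟨ρ, hρ⟩ : ∃ ρ : ℝ, ρ = L / 3 := ⟨_, rfl⟩
  have hc1 : ∀ i, ρ ≤ c i ∧ ρ + 1 ≤ L - c i := by
    intro i
    rw [hc, hρ]
    have e1 : 2 * (L / 2) ≤ L := Nat.mul_div_le L 2
    have e2 : L ≤ 2 * (L / 2) + 1 := by omega
    have e3 : 2 * ((L / 2 : ℕ) : ℝ) ≤ L := by exact_mod_cast e1
    have e4 : (L : ℝ) ≤ 2 * ((L / 2 : ℕ) : ℝ) + 1 := by exact_mod_cast e2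
    constructor
    · rw [Int.cast_natCast]
      linarith
    · rw [Int.cast_natCast]
      linarith
  have hcn : ‖c‖ ≤ Real.exp Y := by
    refine le_trans ?_ (hL2.trans (Real.exp_le_exp.2 hXY1))
    refine (pi_norm_le_iff_of_nonneg hL0.le).2 fun i => ?_
    rw [hc]
    have e1 : L / 2 ≤ L := Nat.div_le_self L 2
    have e3 : ((L / 2 : ℕ) : ℝ) ≤ L := by exact_mod_cast e1
    simp only [Int.norm_natCast]
    exact e3
  obtain ⟨w, hw⟩ : ∃ w, w = σ ^ (253 / 125 : ℝ) := ⟨_, rfl⟩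
  have hw0 : 0 < w := by rw [hw]; exact hpos _
  have hw1 : w ≤ 1 := by rw [hw]; exact hle1 _ (by norm_num)
  obtain ⟨hm, hg10, hgC⟩ := hblk _ he
  have hinvL : 1 / (L : ℝ) ≤ σ ^ (7 : ℝ) := by
    rw [Real.rpow_neg hσ.le] at hL1
    rw [one_div, inv_le_comm₀ hL0 (hpos _)]
    exact hL1
  have herr : 10240 * d * (w⁻¹) ^ 3 / ρ ≤ 30720 * d * σ ^ (116 / 125 : ℝ) := by
    have e1 : (w⁻¹) ^ 3 = σ ^ (-(759 / 125) : ℝ) := by
      rw [hw, ← Real.rpow_neg hσ.le, ← Real.rpow_natCast, ← Real.rpow_mul hσ.le]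
      norm_num
    have e2 : σ ^ (116 / 125 : ℝ) = σ ^ (-(759 / 125) : ℝ) * σ ^ (7 : ℝ) := by
      rw [hpw]
      norm_num
    rw [e1, e2, hρ]
    calc 10240 * (d : ℝ) * σ ^ (-(759 / 125) : ℝ) / (L / 3) =
        30720 * d * σ ^ (-(759 / 125) : ℝ) * (1 / L) := by
          field_simp
          norm_num
      _ ≤ 30720 * d * σ ^ (-(759 / 125) : ℝ) * σ ^ (7 : ℝ) := by
          gcongr
      _ = _ := by ring
  have hcδ : cs σ ^ (1 / 200 : ℝ) ≤ σ ^ (1 / 201 : ℝ) := by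
    rw [hcc]
    exact Real.rpow_le_rpow_of_exponent_ge hσ hσ1 (by norm_num)
  have hb1 : σ ^ (1 / 201 : ℝ) ≤ τ / 8 := by
    have : 8 / τ * σ ^ (1 / 201 : ℝ) = σ ^ (1 / 201 : ℝ) / (τ / 8) := by
      field_simp
    rw [this, div_le_one (by positivity)] at a1
    exact a1
  have hb2 : σ ^ (1 / 201 : ℝ) ≤ m1 / 10 := by
    have : 10 / m1 * σ ^ (1 / 201 : ℝ) = σ ^ (1 / 201 : ℝ) / (m1 / 10) := by
      field_simp
    rw [this, div_le_one (by positivity)] at a2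
    exact a2
  have hb3 : 30720 * d * σ ^ (116 / 125 : ℝ) ≤ τ / 8 := by
    have : 8 * (30720 * d) / τ * σ ^ (116 / 125 : ℝ) =
        (30720 * d * σ ^ (116 / 125 : ℝ)) / (τ / 8) := by
      field_simp
    rw [this, div_le_one (by positivity)] at a3
    exact a3
  have hb4 : 30720 * d * σ ^ (116 / 125 : ℝ) ≤ m1 / 10 := by
    have : 10 * (30720 * d) / m1 * σ ^ (116 / 125 : ℝ) =
        (30720 * d * σ ^ (116 / 125 : ℝ)) / (m1 / 10) := by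
      field_simp
    rw [this, div_le_one (by positivity)] at a4
    exact a4
  have hcpos := hS.cpos
  have hVpos := hS.Vpos
  obtain ⟨s2, hs2⟩ : ∃ s2, s2 = cs σ ^ 2 * Vs σ := ⟨_, rfl⟩
  have hs20 : 0 < s2 := by rw [hs2]; positivity
  have hs2u : s2 ≤ σ ^ 2 := by rw [hs2]; exact hS.s1
  have hs2l : σ ^ 2 / 2 ≤ s2 := by rw [hs2]; exact hS.s3
  have hmain := det (L := L) (by omega : 0 < d) (ω := ω) (cs σ) 1 hcpos hωb c ρ
    (by rw [hρ]; linarith)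
    hc1 e w s2 hw0 hw1 hs20 (γ0 d) (γ1 d) (2 * d - e) C0 m1 K
    (cs σ ^ (1 / 200 : ℝ)) hm1 hgC hm hg10 hK0
    (fun η hη s u hu p hp => by
      have hηr : cs σ ^ (81 / 40 : ℝ) ≤ η ∧ η ≤ cs σ ^ (161 / 80 : ℝ) := by
        have q1 : cs σ ^ (81 / 40 : ℝ) ≤ w / 8 := by
          have q2 : cs σ ^ (81 / 40 : ℝ) = σ ^ (919 / 1000000 : ℝ) * w := by
            rw [hw, hpw, hcc]
            norm_num
          rw [q2]
          nlinarith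
        have q3 : w ≤ cs σ ^ (161 / 80 : ℝ) := by
          rw [hw, hcc]
          exact Real.rpow_le_rpow_of_exponent_ge hσ hσ1 (by norm_num)
        rcases hη with hη | hη
        · rw [hη]
          exact ⟨by linarith, q3⟩
        · rw [hη]
          exact ⟨q1, by linarith⟩
      rw [hs2] at hp ⊢
      exact (hGp _ (hωs L hLN s)).2 c (by rw [← hY]; exact hcn) e he η hηr.1 hηr.2 u hu
        p hp)
    ε θ τ (σ ^ (-(181 / 90) : ℝ)) hε hθ0 hτ (by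
      rw [hθ]
      exact le_of_eq (by field_simp))
    (by
      rw [hK]
      exact le_of_eq (by field_simp))
    (by linarith) (by linarith)
    (by
      have q1 : w * σ ^ 2 * (σ ^ (-(181 / 90) : ℝ)) ^ 2 = σ ^ (2 / 1125 : ℝ) := by
        rw [hw, ← Real.rpow_natCast σ 2, ← Real.rpow_natCast _ 2, ← Real.rpow_mul hσ.le, hpw,
          hpw]
        norm_num
      calc K * (w * s2) * (2 * σ ^ (-(181 / 90) : ℝ)) ^ 2 ≤
          K * (w * σ ^ 2) * (2 * σ ^ (-(181 / 90) : ℝ)) ^ 2 := by gcongr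
        _ = 4 * K * (w * σ ^ 2 * (σ ^ (-(181 / 90) : ℝ)) ^ 2) := by ring
        _ = 4 * K * σ ^ (2 / 1125 : ℝ) := by rw [q1]
        _ ≤ 1 := a5)
    (by
      have q1 : 2 * (2 * Real.pi) ^ 2 * (1 + 4 * C0 / τ) ^ 2 * σ ^ (1247 / 125 : ℝ) ≤ K := by
        have : 2 * (2 * Real.pi) ^ 2 * (1 + 4 * C0 / τ) ^ 2 / K * σ ^ (1247 / 125 : ℝ) =
            2 * (2 * Real.pi) ^ 2 * (1 + 4 * C0 / τ) ^ 2 * σ ^ (1247 / 125 : ℝ) / K := by
          ring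
        rw [this, div_le_one (by positivity)] at a6
        exact a6
      have q2 : σ ^ (-14 : ℝ) ≤ (L : ℝ) ^ 2 := by
        have : σ ^ (-14 : ℝ) = (σ ^ (-7 : ℝ)) ^ 2 := by
          rw [← Real.rpow_natCast, ← Real.rpow_mul hσ.le]
          norm_num
        rw [this]
        have := (hpos (-7)).le
        gcongr
      have q3 : σ ^ (1247 / 125 : ℝ) * (σ ^ (-14 : ℝ) * (w * σ ^ 2)) = 1 := by
        rw [hw, ← Real.rpow_natCast σ 2, hpw, hpw, hpw]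
        norm_num
      calc (2 * Real.pi) ^ 2 * (1 + 4 * C0 / τ) ^ 2 =
          (2 * (2 * Real.pi) ^ 2 * (1 + 4 * C0 / τ) ^ 2 * σ ^ (1247 / 125 : ℝ)) *
            (σ ^ (-14 : ℝ) * (w * (σ ^ 2 / 2))) := by
              linear_combination (-(2 * Real.pi) ^ 2 * (1 + 4 * C0 / τ) ^ 2) * q3
        _ ≤ K * (σ ^ (-14 : ℝ) * (w * (σ ^ 2 / 2))) := by
              have := (hpos (-14)).le
              gcongr
        _ ≤ K * ((L : ℝ) ^ 2 * (w * s2)) := by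
              gcongr
        _ = _ := by ring)
    hEB'
  rw [hw] at hmain
  exact hmain

end Pool.Agent.H189.G
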